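import Pool.Agent.Q261.CFD.Gap

/-!
# The dimension spectrum of the powers of `q` together with `1`

`Q261.CFD.J F` (in `Pool.Agent.Q261.CFD.Basic`) is the set of irrational numbers of `(0,1)` all of
whose continued fraction digits `⌊1 / G ^ n x⌋`, with `G` the Gauss map, lie in `F`.
-/

set_option autoImplicit false

namespace Pool.Agent.Results.MP_41c62e_nt.NowhereDense

open Set Filter Topology MeasureTheory Q261.CFD
open scoped ENNReal NNReal

/-- the powers `q, q ^ 2, ...` together with `1` -/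
def Pstar (q : ℕ) : Set ℕ := {a | a = 1 ∨ ∃ n : ℕ, 1 ≤ n ∧ a = q ^ n}

/-- the dimension spectrum of `A` -/
noncomputable def DS (A : Set ℕ) : Set ℝ := {d | ∃ B : Set ℕ, B ⊆ A ∧ d = (dimH (J B)).toReal}

/-- the dimension of the numbers with digits in `1, q ^ 2, q ^ 3, ...` -/
noncomputable def mu1 (q : ℕ) : ℝ := (dimH (J (Pstar q \ {q}))).toReal

/-- `S ∩ U` is dense in no nonempty open subinterval of `U` -/
def NowhereDenseIn (S U : Set ℝ) : Prop :=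
  ∀ a b : ℝ, a < b → Ioo a b ⊆ U → ¬ Ioo a b ⊆ closure (S ∩ U)

/-- the digits with exponents in `C`, and `1` -/
def dig (q : ℕ) (C : Set ℕ) : Set ℕ := {a | a = 1 ∨ ∃ n : ℕ, 1 ≤ n ∧ n ∈ C ∧ a = q ^ n}

/-- the dimension function -/
noncomputable def f (q : ℕ) (C : Set ℕ) : ℝ := (dimH (J (dig q C))).toReal

lemma dimH_ne_top (F : Set ℕ) : dimH (J F) ≠ ⊤ :=
  ne_top_of_le_ne_top ENNReal.one_ne_top (dimH_J_le_one F)

lemma toReal_mono' {F G : Set ℕ} (h : F ⊆ G) : (dimH (J F)).toReal ≤ (dimH (J G)).toReal :=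
  ENNReal.toReal_mono (dimH_ne_top _) (dimH_mono (J_mono h))

lemma f_mono (q : ℕ) (C C' : Set ℕ) (h : C ⊆ C') : f q C ≤ f q C' := by
  apply toReal_mono'
  rintro a (h1 | ⟨n, h1, h2, h3⟩)
  · exact Or.inl h1
  · exact Or.inr ⟨n, h1, h h2, h3⟩

lemma log_two_lt {q : ℕ} (hq : 2 ≤ q) {s : ℝ} (hs : Real.log 2 / (2 * Real.log q) < s) :
    2 < (q : ℝ) ^ (2 * s) := by
  have hq' : (2 : ℝ) ≤ q := by exact_mod_cast hq
  have hl : 0 < Real.log q := Real.log_pos (by linarith)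
  rw [div_lt_iff₀ (by positivity)] at hs
  rw [← Real.log_lt_log_iff (by norm_num) (by positivity), Real.log_rpow (by positivity)]
  linarith

/-- the small weight condition holds for all large exponents -/
lemma exists_N {q : ℕ} (hq : 2 ≤ q) {s₀ : ℝ} (hs : Real.log 2 / (2 * Real.log q) < s₀) :
    ∃ N : ℕ, ∀ l, N < l → (1 + 2 / ((q ^ l : ℕ) : ℝ)) ^ 2 *
      (((q : ℝ) ^ (2 * s₀))⁻¹ / (1 - ((q : ℝ) ^ (2 * s₀))⁻¹)) < 1 := by
  have hq' : (2 : ℝ) ≤ q := by exact_mod_cast hq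
  have h2 := log_two_lt hq hs
  set X := (q : ℝ) ^ (2 * s₀) with hX
  have h3 : X⁻¹ / (1 - X⁻¹) < 1 := by
    have h4 : X⁻¹ < 2⁻¹ := inv_strictAnti₀ (by norm_num) h2
    rw [div_lt_one (by linarith)]
    linarith
  have h5 : Tendsto (fun l : ℕ => (1 + 2 / ((q ^ l : ℕ) : ℝ)) ^ 2 * (X⁻¹ / (1 - X⁻¹))) atTop
      (𝓝 ((1 + 0) ^ 2 * (X⁻¹ / (1 - X⁻¹)))) := by
    refine Tendsto.mul_const _ (Tendsto.pow (Tendsto.const_add 1 ?_) 2)
    push_cast
    exact Tendsto.const_div_atTop (tendsto_pow_atTop_atTop_of_one_lt (by linarith)) 2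
  rw [add_zero, one_pow, one_mul] at h5
  obtain ⟨N, hN⟩ := eventually_atTop.1 (h5.eventually (gt_mem_nhds h3))
  exact ⟨N, fun l hl => hN l hl.le⟩

lemma f_lex {q : ℕ} (hq : 2 ≤ q) {s₀ : ℝ} (hs₀ : 0 < s₀) {N : ℕ}
    (hN : ∀ l, N < l → (1 + 2 / ((q ^ l : ℕ) : ℝ)) ^ 2 *
      (((q : ℝ) ^ (2 * s₀))⁻¹ / (1 - ((q : ℝ) ^ (2 * s₀))⁻¹)) < 1) :
    ∀ l, N < l → ∀ C C' : Set ℕ, (∀ i < l, i ∈ C ↔ i ∈ C') → l ∉ C → l ∈ C' →
      s₀ < f q C → f q C < f q C' := by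
  classical
  intro l hl C C' hCC hlC hlC' hfs
  set A : Finset ℕ := insert 1 (((Finset.range l).filter fun i => 1 ≤ i ∧ i ∈ C).image (q ^ ·))
    with hA
  have memA : ∀ b, b ∈ A ↔ b = 1 ∨ ∃ i, i < l ∧ 1 ≤ i ∧ i ∈ C ∧ b = q ^ i := by
    intro b
    rw [hA, Finset.mem_insert, Finset.mem_image]
    simp only [Finset.mem_filter, Finset.mem_range]
    constructor
    · rintro (h | ⟨i, ⟨h1, h2, h3⟩, h4⟩)
      · exact Or.inl h
      · exact Or.inr ⟨i, h1, h2, h3, h4.symm⟩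
    · rintro (h | ⟨i, h1, h2, h3, h4⟩)
      · exact Or.inl h
      · exact Or.inr ⟨i, ⟨h1, h2, h3⟩, h4.symm⟩
  have hinj : ∀ i j : ℕ, q ^ i = q ^ j → i = j := fun i j h =>
    Nat.pow_right_injective hq h
  have h1A : ∀ b ∈ A, 1 ≤ b := by
    intro b hb
    rcases (memA b).1 hb with h | ⟨i, -, -, -, h⟩
    · rw [h]
    · rw [h]; exact Nat.one_le_pow _ _ (by omega)
  have haA : q ^ l ∉ A := by
    intro h
    rcases (memA _).1 h with h | ⟨i, h1, -, -, h⟩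
    · have := hinj l 0 (by rw [h, pow_zero])
      omega
    · have := hinj _ _ h
      omega
  have hG : ∀ b ∈ dig q C, b ∈ A ∨ ∃ j : ℕ, b = q ^ l * q ^ (j + 1) := by
    rintro b (h | ⟨n, h1, h2, h3⟩)
    · exact Or.inl ((memA b).2 (Or.inl h))
    · rcases lt_trichotomy n l with h | h | h
      · exact Or.inl ((memA b).2 (Or.inr ⟨n, h, h1, h2, h3⟩))
      · exact absurd (h ▸ h2) hlC
      · refine Or.inr ⟨n - l - 1, ?_⟩
        rw [h3, ← pow_add]
        congr 1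
        omega
  have hsub : ((insert (q ^ l) A : Finset ℕ) : Set ℕ) ⊆ dig q C' := by
    intro b hb
    rcases Finset.mem_insert.1 (Finset.mem_coe.1 hb) with h | h
    · exact Or.inr ⟨l, by omega, hlC', h⟩
    · rcases (memA b).1 h with h | ⟨i, h1, h2, h3, h4⟩
      · exact Or.inl h
      · exact Or.inr ⟨i, h2, (hCC i h1).1 h3, h4⟩
  rcases gap_or h1A (Nat.one_le_pow _ _ (by omega)) hq haA ⟨1, (memA 1).2 (Or.inl rfl)⟩ hs₀
    (hN l hl) hG with h | h
  · exfalso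
    have := ENNReal.toReal_mono ENNReal.ofReal_ne_top h
    rw [ENNReal.toReal_ofReal hs₀.le] at this
    exact absurd hfs (not_lt.2 this)
  · have h1 := (ENNReal.toReal_lt_toReal (dimH_ne_top _) (dimH_ne_top _)).2 h
    exact h1.trans_le (toReal_mono' hsub)

lemma coe_inv_rpow' {q : ℕ} (hq : 1 ≤ q) (n : ℕ) {r : ℝ} (hr : 0 ≤ r) :
    (((((q ^ n : ℕ) : ℝ≥0))⁻¹ : ℝ≥0) : ℝ≥0∞) ^ r = ENNReal.ofReal ((((q : ℝ) ^ r)⁻¹) ^ n) := by
  rw [← ENNReal.coe_rpow_of_nonneg _ hr, ENNReal.ofReal]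
  congr 1
  ext
  rw [Real.coe_toNNReal _ (by positivity), NNReal.coe_rpow, NNReal.coe_inv]
  push_cast
  have hq' : (0 : ℝ) < q := by exact_mod_cast hq
  rw [Real.inv_rpow (by positivity), inv_pow, ← Real.rpow_natCast, ← Real.rpow_natCast,
    ← Real.rpow_mul hq'.le, ← Real.rpow_mul hq'.le, mul_comm]

/-- sets of digits without the digit `1` have small dimension -/
lemma no_one {q : ℕ} (hq : 2 ≤ q) {B : Set ℕ} (hB : B ⊆ Pstar q) (h1 : 1 ∉ B) :
    (dimH (J B)).toReal ≤ Real.log 2 / (2 * Real.log q) := by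
  have hq' : (2 : ℝ) ≤ q := by exact_mod_cast hq
  have hl : 0 < Real.log q := Real.log_pos (by linarith)
  have hl2 : 0 < Real.log 2 := Real.log_pos (by norm_num)
  apply le_of_forall_gt_imp_ge_of_dense
  intro s hs
  have hs0 : 0 < s := lt_trans (by positivity) hs
  have h2 := log_two_lt hq hs
  have h3 : dimH (J B) ≤ (s.toNNReal : ℝ≥0∞) := by
    refine dimH_J_le (fun i => q ^ (i + 1)) (fun i => Nat.one_le_pow _ _ (by omega)) ?_
      (Real.toNNReal_pos.2 hs0) ?_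
    · intro a ha
      rcases hB ha with h | ⟨n, hn, h⟩
      · exact absurd (h ▸ ha) h1
      · refine ⟨n - 1, ?_⟩
        rw [h]
        congr 1
        omega
    · rw [Real.coe_toNNReal _ hs0.le]
      have e : ∀ i : ℕ, (((((q ^ (i + 1) : ℕ) : ℝ≥0))⁻¹ : ℝ≥0) : ℝ≥0∞) ^ (2 * s) =
          ENNReal.ofReal ((((q : ℝ) ^ (2 * s))⁻¹) ^ (i + 1)) := by
        intro i
        rw [coe_inv_rpow' (by omega) (i + 1) (by positivity)]
      simp_rw [e]
      have hX0 : 0 < ((q : ℝ) ^ (2 * s))⁻¹ := by positivity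
      have hX1 : ((q : ℝ) ^ (2 * s))⁻¹ < 2⁻¹ := inv_strictAnti₀ (by norm_num) h2
      refine (tsum_geo_le zero_le_one hX0.le (by linarith) (fun j => by positivity)
        (fun j => (one_mul _).ge)).trans_lt ?_
      rw [ENNReal.ofReal_lt_one, one_mul, div_lt_one (by linarith)]
      linarith
  have h4 := ENNReal.toReal_mono ENNReal.coe_ne_top h3
  rw [ENNReal.coe_toReal, Real.coe_toNNReal _ hs0.le] at h4
  exact h4

lemma DS_sub {q : ℕ} (hq : 2 ≤ q) {d : ℝ} (hd : d ∈ DS (Pstar q))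
    (h : Real.log 2 / (2 * Real.log q) < d) : ∃ C : Set ℕ, d = f q C := by
  obtain ⟨B, hB, rfl⟩ := hd
  have h1 : 1 ∈ B := by
    by_contra h1
    exact absurd h (not_lt.2 (no_one hq hB h1))
  refine ⟨{n | 1 ≤ n ∧ q ^ n ∈ B}, ?_⟩
  have : B = dig q {n | 1 ≤ n ∧ q ^ n ∈ B} := by
    ext b
    constructor
    · intro hb
      rcases hB hb with h | ⟨n, hn, h⟩
      · exact Or.inl h
      · exact Or.inr ⟨n, hn, ⟨hn, h ▸ hb⟩, h⟩
    · rintro (h | ⟨n, hn, ⟨-, h2⟩, h⟩)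
      · rw [h]; exact h1
      · rw [h]; exact h2
  unfold f
  rw [← this]

lemma nowhere {q : ℕ} (hq : 2 ≤ q) :
    NowhereDenseIn (DS (Pstar q)) (Ioi (Real.log 2 / (2 * Real.log q))) := by
  intro a b hab hU hcl
  have hq' : (2 : ℝ) ≤ q := by exact_mod_cast hq
  have hl : 0 < Real.log q := Real.log_pos (by linarith)
  have hl2 : 0 < Real.log 2 := Real.log_pos (by norm_num)
  set σ := Real.log 2 / (2 * Real.log q) with hσ
  have hσ0 : 0 < σ := by positivity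
  have ha : σ ≤ a := by
    by_contra! hlt
    obtain ⟨y, hy1, hy2⟩ := exists_between (lt_min hlt hab)
    exact absurd (hU ⟨hy1, hy2.trans_le (min_le_right _ _)⟩)
      (not_lt.2 (hy2.le.trans (min_le_left _ _)))
  set s₀ := (a + b) / 2 with hs₀
  have h1 : σ < s₀ := by linarith
  obtain ⟨N, hN⟩ := exists_N hq h1
  obtain ⟨c, d, h2, h3, h4, h5⟩ := all_gap (f := f q) (s₀ := s₀) (N := N) (a := s₀) (b := b)
    (f_mono q) (f_lex hq (by linarith) hN) (by linarith) le_rfl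
  have h6 : (c + d) / 2 ∈ closure (DS (Pstar q) ∩ Ioi σ) :=
    hcl ⟨by linarith, by linarith⟩
  rw [mem_closure_iff] at h6
  obtain ⟨y, hy1, hy2, hy3⟩ := h6 (Ioo c d) isOpen_Ioo ⟨by linarith, by linarith⟩
  obtain ⟨C, rfl⟩ := DS_sub hq hy2 hy3
  exact h5 C hy1

/-- **Main result**: the dimension spectrum is nowhere dense in `(ln 2 / (2 ln q), μ¹)` for all
`q ≥ 3`; in fact it is nowhere dense in `(ln 2 / (2 ln q), ∞)` for all `q ≥ 2`. -/
theorem result :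
    (∀ q : ℕ, 3 ≤ q →
      NowhereDenseIn (DS (Pstar q)) (Ioo (Real.log 2 / (2 * Real.log q)) (mu1 q))) ∧
    (∀ q : ℕ, 2 ≤ q → NowhereDenseIn (DS (Pstar q)) (Ioi (Real.log 2 / (2 * Real.log q)))) := by
  refine ⟨fun q hq a b hab hU hcl => ?_, fun q hq => nowhere hq⟩
  refine nowhere (by omega : 2 ≤ q) a b hab (hU.trans fun x hx => hx.1) (hcl.trans ?_)
  exact closure_mono fun x hx => ⟨hx.1, hx.2.1⟩

end Pool.Agent.Results.MP_41c62e_nt.NowhereDense
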